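import Pool.Agent.FKP.StmtsS

/-!
# FKP, module DUG: conjugation with the longest element
-/

set_option autoImplicit false

open Finset Equiv

noncomputable section

namespace Pool.Agent.FKP.H20

/-- the symmetric polynomials without constant term vanish at the Dunkl elements -/
theorem ev_Isy (pie : PieStmt) {N : ℕ} {p : MvPolynomial (Fin N) ℤ} (hp : p ∈ Isy N) :
    ev N p = 0 := by
  have h : Isy N ≤ RingHom.ker (ev N) := by
    unfold Isy
    rw [Ideal.span_le]
    rintro z ⟨k, hk, rfl⟩
    rw [SetLike.mem_coe, RingHom.mem_ker]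
    exact (pie N N le_rfl).1 k hk
  exact RingHom.mem_ker.1 (h hp)

theorem dug (pie : PieStmt) (dua : DuaStmt) (aut : AutStmt) : DugStmt := by
  intro N w hw S hS
  obtain ⟨ρ, -, hP, hev⟩ := aut N
  have h1 := ev_Isy pie (dua N S hS w)
  rw [map_sub, sub_eq_zero] at h1
  rw [h1, ← hev]
  exact hP _ (hw S hS)

end Pool.Agent.FKP.H20
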