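import Pool.Agent.Helper20_FKP.Pieri
import Pool.Agent.Helper2_FKP.Pix

/-!
# FKP, module PIE
-/

set_option autoImplicit false

open Finset

noncomputable section

namespace Pool.Agent.FKP.H20

/-- the exact Pieri formula in the list form -/
theorem pix (str : StrStmt) (col : ColStmt) : H2.PixStmt :=
  H2.pix_of (fun N => Vv (N := N)) (fun _ _ => rfl) (fun _ _ _ _ => rfl) cols pw_cols
    (fun _ _ _ => mem_cols) (fun _ _ k hj => pieri_exact str col hj k)

theorem pie (str : StrStmt) (col : ColStmt) : PieStmt := by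
  intro N j hj
  refine ⟨?_, ?_, ?_⟩
  · intro k hk
    rw [pix str col N N k le_rfl]
    refine sum_eq_zero fun l hl => ?_
    exfalso
    rw [H2.mem_LL] at hl
    obtain ⟨h1, h2, -, -⟩ := hl
    cases l with
    | nil =>
      rw [List.length_nil] at h1
      omega
    | cons p l =>
      exact absurd (h2 p List.mem_cons_self).2 (p.2.isLt.not_ge)
  · intro k
    rw [pix str col N j k hj]
    refine sum_mem fun l hl => ?_
    rw [H2.mem_LL] at hl
    unfold wd
    refine list_prod_mem fun z hz => ?_
    obtain ⟨p, hp, rfl⟩ := List.mem_map.1 hz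
    exact Subsemiring.subset_closure ⟨p, hl.2.1 p hp, rfl⟩
  · intro l hl hn
    have hd : ∀ p ∈ l, ∀ q ∈ l, p.1 ≠ q.2 := by
      intro p hp q hq h
      have h1 := (hl p hp).1
      have h2 := (hl q hq).2
      rw [h] at h1
      omega
    have hs : H2.srt l ∈ H2.LL N j l.length := by
      rw [H2.mem_LL]
      have hp := H2.srt_perm l
      exact ⟨hp.length_eq, fun p h => hl p (hp.mem_iff.1 h), (hp.map Prod.fst).nodup_iff.2 hn,
        H2.srt_pairwise l⟩
    refine ⟨∑ w ∈ (H2.LL N j l.length).erase (H2.srt l), wd w, ?_, ?_⟩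
    · refine sum_mem fun w hw => ?_
      have hw' := (H2.mem_LL.1 (mem_of_mem_erase hw)).2
      refine H2.wd_mem fun p hp => ?_
      have h1 := hw'.1 p hp
      rw [Fin.lt_def]
      exact lt_of_lt_of_le h1.1 h1.2
    · rw [pix str col N j _ hj, ← add_sum_erase _ _ hs, H2.wd_srt hn hd]

end Pool.Agent.FKP.H20
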