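import Pool.Agent.FKP.Stmts

/-!
# FKP: Pieri's formula, exact form
-/

set_option autoImplicit false

open Finset

noncomputable section

namespace Pool.Agent.FKP.H20

/-! ### Convolution of functions on finite sets -/

section Conv

variable {ι M : Type} [DecidableEq ι] [Ring M]

/-- convolution -/
def cv (f g : Finset ι → M) (D : Finset ι) : M := ∑ B ∈ D.powerset, f B * g (D \ B)

theorem cv_congr {f f' g g' : Finset ι → M} {D : Finset ι} (hf : ∀ B ⊆ D, f B = f' B)
    (hg : ∀ B ⊆ D, g B = g' B) : cv f g D = cv f' g' D := by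
  unfold cv
  refine sum_congr rfl fun B hB => ?_
  rw [mem_powerset] at hB
  rw [hf B hB, hg _ sdiff_subset]

theorem cv_assoc (f g h : Finset ι → M) (D : Finset ι) :
    cv (cv f g) h D = cv f (cv g h) D := by
  unfold cv
  simp only [sum_mul, mul_sum]
  rw [sum_sigma', sum_sigma']
  refine sum_bij' (fun x _ => ⟨x.2, x.1 \ x.2⟩) (fun x _ => ⟨x.1 ∪ x.2, x.1⟩) ?_ ?_ ?_ ?_ ?_
  · rintro ⟨S, B⟩ hx
    simp only [mem_sigma, mem_powerset] at hx ⊢
    exact ⟨hx.2.trans hx.1, sdiff_subset_sdiff hx.1 (Subset.refl _)⟩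
  · rintro ⟨B, C⟩ hx
    simp only [mem_sigma, mem_powerset] at hx ⊢
    exact ⟨union_subset hx.1 (hx.2.trans sdiff_subset), subset_union_left⟩
  · rintro ⟨S, B⟩ hx
    simp only [mem_sigma, mem_powerset] at hx
    have : B ∪ S \ B = S := union_sdiff_of_subset hx.2
    simp only [this]
  · rintro ⟨B, C⟩ hx
    simp only [mem_sigma, mem_powerset] at hx
    have : (B ∪ C) \ B = C := by
      rw [union_sdiff_left]
      exact sdiff_eq_self_of_disjoint
        ((disjoint_sdiff (s := B) (t := D)).mono_right hx.2).symm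
    simp only [this]
  · rintro ⟨S, B⟩ hx
    simp only [mem_sigma, mem_powerset] at hx
    have : (D \ B) \ (S \ B) = D \ S := by
      rw [Finset.sdiff_sdiff_left']
      ext a
      simp only [mem_inter, mem_sdiff]
      constructor
      · rintro ⟨⟨h1, h2⟩, h3, h4⟩
        exact ⟨h1, fun h => h4 ⟨h, h2⟩⟩
      · rintro ⟨h1, h2⟩
        exact ⟨⟨h1, fun h => h2 (hx.2 h)⟩, h1, fun h => h2 h.1⟩
    simp only [this]
    rw [mul_assoc]

theorem cv_comm {f g : Finset ι → M} {D : Finset ι}
    (h : ∀ B ⊆ D, f B * g (D \ B) = g (D \ B) * f B) : cv f g D = cv g f D := by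
  unfold cv
  refine sum_nbij' (fun B => D \ B) (fun B => D \ B) ?_ ?_ ?_ ?_ ?_
  · intro B _
    rw [mem_powerset]
    exact sdiff_subset
  · intro B _
    rw [mem_powerset]
    exact sdiff_subset
  · intro B hB
    rw [mem_powerset] at hB
    exact Finset.sdiff_sdiff_eq_self hB
  · intro B hB
    rw [mem_powerset] at hB
    exact Finset.sdiff_sdiff_eq_self hB
  · intro B hB
    rw [mem_powerset] at hB
    rw [h B hB, Finset.sdiff_sdiff_eq_self hB]

theorem cv_add_left (f f' g : Finset ι → M) (D : Finset ι) :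
    cv (fun B => f B + f' B) g D = cv f g D + cv f' g D := by
  unfold cv
  rw [← sum_add_distrib]
  exact sum_congr rfl fun B _ => add_mul _ _ _

theorem cv_add_right (f g g' : Finset ι → M) (D : Finset ι) :
    cv f (fun B => g B + g' B) D = cv f g D + cv f g' D := by
  unfold cv
  rw [← sum_add_distrib]
  exact sum_congr rfl fun B _ => mul_add _ _ _

theorem cv_empty (f g : Finset ι → M) : cv f g ∅ = f ∅ * g ∅ := by
  unfold cv
  rw [powerset_empty, sum_singleton, sdiff_self]
  rfl

theorem cv_insert (f g : Finset ι → M) {D : Finset ι} {k : ι} (hk : k ∉ D) :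
    cv f g (insert k D) = cv f (fun E => g (insert k E)) D +
      cv (fun B => f (insert k B)) g D := by
  unfold cv
  rw [sum_powerset_insert hk]
  congr 1
  · refine sum_congr rfl fun B hB => ?_
    rw [mem_powerset] at hB
    rw [insert_sdiff_of_notMem _ (fun h => hk (hB h))]
  · refine sum_congr rfl fun B hB => ?_
    rw [mem_powerset] at hB
    congr 2
    ext a
    simp only [mem_sdiff, mem_insert]
    constructor
    · rintro ⟨h1 | h1, h2⟩
      · exact absurd (Or.inl h1) h2
      · exact ⟨h1, fun h => h2 (Or.inr h)⟩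
    · rintro ⟨h1, h2⟩
      refine ⟨Or.inr h1, ?_⟩
      rintro (h | h)
      · exact hk (h ▸ h1)
      · exact h2 h

/-- the function with values `x a` on the singletons -/
def sg (x : ι → M) (S : Finset ι) : M := if S.card = 1 then ∑ a ∈ S, x a else 0

theorem cv_sg (W : Finset ι → M) (x : ι → M) (B : Finset ι) :
    cv W (sg x) B = ∑ a ∈ B, W (B.erase a) * x a := by
  unfold cv
  have h1 : ∀ C ∈ B.powerset, C ∉ B.image (fun a => B.erase a) → W C * sg x (B \ C) = 0 := by
    intro C hC hC'
    rw [mem_powerset] at hC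
    have : sg x (B \ C) = 0 := by
      unfold sg
      rw [if_neg]
      intro h
      obtain ⟨a, ha⟩ := card_eq_one.1 h
      apply hC'
      rw [mem_image]
      have haB : a ∈ B \ C := by rw [ha]; exact mem_singleton_self a
      refine ⟨a, (mem_sdiff.1 haB).1, ?_⟩
      have : B.erase a = B \ (B \ C) := by
        rw [ha, sdiff_singleton_eq_erase]
      rw [this]
      exact Finset.sdiff_sdiff_eq_self hC
    rw [this, mul_zero]
  have h2 : B.image (fun a => B.erase a) ⊆ B.powerset := by
    intro C hC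
    obtain ⟨a, _, rfl⟩ := mem_image.1 hC
    rw [mem_powerset]
    exact erase_subset _ _
  rw [← sum_subset h2 h1, sum_image]
  · refine sum_congr rfl fun a ha => ?_
    have : B \ B.erase a = {a} := by
      ext c
      simp only [mem_sdiff, mem_erase, mem_singleton]
      constructor
      · rintro ⟨h1, h2⟩
        by_contra h
        exact h2 ⟨h, h1⟩
      · rintro rfl
        exact ⟨ha, fun h => h.1 rfl⟩
    rw [this]
    unfold sg
    rw [if_pos (card_singleton a), sum_singleton]
  · intro a ha b hb hab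
    by_contra hne
    have h3 : a ∈ B.erase b := mem_erase.2 ⟨hne, ha⟩
    have h4 : B.erase a = B.erase b := hab
    rw [← h4] at h3
    exact notMem_erase a B h3

/-- moving one element -/
theorem sum_move (W : Finset ι → M) (x : ι → M) (k : ℕ) (D : Finset ι) :
    ∑ B ∈ powersetCard k D, W B * ∑ a ∈ D \ B, x a =
      ∑ B ∈ powersetCard (k + 1) D, cv W (sg x) B := by
  simp only [cv_sg, mul_sum]
  rw [sum_sigma', sum_sigma']
  refine sum_bij' (fun y _ => ⟨insert y.2 y.1, y.2⟩) (fun y _ => ⟨y.1.erase y.2, y.2⟩) ?_ ?_ ?_ ?_ ?_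
  · rintro ⟨B, a⟩ hx
    simp only [mem_sigma, mem_powersetCard, mem_sdiff] at hx ⊢
    obtain ⟨⟨h1, h2⟩, h3, h4⟩ := hx
    refine ⟨⟨insert_subset h3 h1, ?_⟩, mem_insert_self _ _⟩
    rw [card_insert_of_notMem h4, h2]
  · rintro ⟨B, a⟩ hx
    simp only [mem_sigma, mem_powersetCard, mem_sdiff] at hx ⊢
    obtain ⟨⟨h1, h2⟩, h3⟩ := hx
    refine ⟨⟨(erase_subset _ _).trans h1, ?_⟩, h1 h3, notMem_erase _ _⟩
    rw [card_erase_of_mem h3, h2]
    rfl
  · rintro ⟨B, a⟩ hx
    simp only [mem_sigma, mem_powersetCard, mem_sdiff] at hx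
    simp only [erase_insert hx.2.2]
  · rintro ⟨B, a⟩ hx
    simp only [mem_sigma, mem_powersetCard] at hx
    simp only [insert_erase hx.2]
  · rintro ⟨B, a⟩ hx
    simp only [mem_sigma, mem_powersetCard, mem_sdiff] at hx
    simp only [erase_insert hx.2.2]

theorem cv_flip (f g : Finset ι → M) (D : Finset ι) :
    cv f g D = ∑ B ∈ D.powerset, f (D \ B) * g B := by
  unfold cv
  refine sum_nbij' (fun B => D \ B) (fun B => D \ B) ?_ ?_ ?_ ?_ ?_
  · intro B _
    rw [mem_powerset]
    exact sdiff_subset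
  · intro B _
    rw [mem_powerset]
    exact sdiff_subset
  · intro B hB
    rw [mem_powerset] at hB
    exact Finset.sdiff_sdiff_eq_self hB
  · intro B hB
    rw [mem_powerset] at hB
    exact Finset.sdiff_sdiff_eq_self hB
  · intro B hB
    rw [mem_powerset] at hB
    rw [Finset.sdiff_sdiff_eq_self hB]

end Conv

/-! ### The sum over all orders -/

variable {N : ℕ}

/-- the lists which enumerate `C` -/
def Ls {ι : Type} (C : Finset ι) : Finset (List ι) := ⟨C.val.lists, Multiset.lists_nodup_finset C⟩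

theorem mem_Ls {ι : Type} {C : Finset ι} {l : List ι} : l ∈ Ls C ↔ C.val = (l : Multiset ι) := by
  have : l ∈ Ls C ↔ l ∈ C.val.lists := Iff.rfl
  rw [this, Multiset.mem_lists_iff]
  rfl

theorem mem_of_Ls {ι : Type} {C : Finset ι} {l : List ι} (h : l ∈ Ls C) (a : ι) :
    a ∈ l ↔ a ∈ C := by
  rw [mem_Ls] at h
  rw [← Finset.mem_val, h, Multiset.mem_coe]

theorem nodup_of_Ls {ι : Type} {C : Finset ι} {l : List ι} (h : l ∈ Ls C) : l.Nodup := by
  rw [mem_Ls] at h
  rw [← Multiset.coe_nodup, ← h]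
  exact C.nodup

theorem R_eq (b : Fin N) (C : Finset (Fin N)) :
    R b C = ∑ l ∈ Ls C, (l.map fun c => X c b).prod := rfl

theorem Ls_empty {ι : Type} : Ls (∅ : Finset ι) = {[]} := by
  ext l
  rw [mem_Ls, mem_singleton]
  constructor
  · intro h
    have : (l : Multiset ι) = 0 := h.symm
    rwa [Multiset.coe_eq_zero] at this
  · rintro rfl
    rfl

theorem R_empty (b : Fin N) : R b ∅ = (1 : A N) := by
  rw [R_eq, Ls_empty, sum_singleton]
  rfl

theorem Ls_append {ι : Type} [DecidableEq ι] {C : Finset ι} {l : List ι} {a : ι} :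
    l ++ [a] ∈ Ls C ↔ a ∈ C ∧ l ∈ Ls (C.erase a) := by
  constructor
  · intro h
    have ha : a ∈ C := by
      rw [← mem_of_Ls h]
      simp
    refine ⟨ha, ?_⟩
    rw [mem_Ls] at h ⊢
    rw [erase_val, h, ← Multiset.coe_add, Multiset.coe_singleton]
    have h2 : (l : Multiset ι) + {a} = a ::ₘ (l : Multiset ι) := by
      rw [add_comm]
      rfl
    rw [h2, Multiset.erase_cons_head]
  · rintro ⟨ha, h⟩
    rw [mem_Ls] at h ⊢
    rw [erase_val] at h
    rw [← Multiset.coe_add, ← h, Multiset.coe_singleton, add_comm, Multiset.singleton_add,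
      Multiset.cons_erase ha]

theorem R_right (b : Fin N) {C : Finset (Fin N)} (hC : C.Nonempty) :
    R b C = ∑ a ∈ C, R b (C.erase a) * X a b := by
  simp only [R_eq, sum_mul]
  rw [sum_sigma']
  symm
  refine sum_bij (fun x _ => x.2 ++ [x.1]) ?_ ?_ ?_ ?_
  · rintro ⟨a, l⟩ hx
    rw [mem_sigma] at hx
    exact Ls_append.2 hx
  · rintro ⟨a, l⟩ _ ⟨a', l'⟩ _ h
    have h1 : l ++ [a] = l' ++ [a'] := h
    obtain ⟨h2, h3⟩ := List.append_inj' h1 rfl
    have h4 : a = a' := by simpa using h3
    subst h2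
    subst h4
    rfl
  · intro l hl
    rcases List.eq_nil_or_concat l with rfl | ⟨l', a, rfl⟩
    · exfalso
      rw [mem_Ls] at hl
      obtain ⟨c, hc⟩ := hC
      have : c ∈ C.val := hc
      rw [hl] at this
      simp at this
    · rw [List.concat_eq_append] at hl ⊢
      exact ⟨⟨a, l'⟩, mem_sigma.2 (Ls_append.1 hl), rfl⟩
  · rintro ⟨a, l⟩ _
    simp

theorem R_kill (str : StrStmt) (k : Fin N) {C : Finset (Fin N)} (hC : ∀ a ∈ C, a < k) {a : Fin N}
    (ha : a ∈ C) : R k C * X a k = 0 := by
  rw [R_eq, sum_mul]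
  refine sum_eq_zero fun l hl => ?_
  obtain ⟨u, v, rfl⟩ := List.append_of_mem ((mem_of_Ls hl a).2 ha)
  have hnd := nodup_of_Ls hl
  have h1 : (a :: v).Nodup := (List.nodup_append.1 hnd).2.1
  have h2 : ∀ c ∈ a :: v, c < k := by
    intro c hc
    exact hC c ((mem_of_Ls hl c).1 (List.mem_append_right _ hc))
  have h3 := str N k a v h1 (Or.inl h2)
  rw [List.map_append, List.prod_append, List.map_cons, List.prod_cons, mul_assoc, h3, mul_zero]

theorem R_commute {z : A N} {b : Fin N} {C : Finset (Fin N)} (h : ∀ c ∈ C, Commute z (X c b)) :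
    Commute z (R b C) := by
  rw [R_eq]
  refine Commute.sum_right _ _ _ fun l hl => ?_
  refine Commute.list_prod_right _ _ fun y hy => ?_
  obtain ⟨c, hc, rfl⟩ := List.mem_map.1 hy
  exact h c ((mem_of_Ls hl c).1 hc)

/-! ### Decompositions into columns -/

/-- all decompositions of `B` into columns -/
def Vv : List (Fin N) → Finset (Fin N) → A N
  | [], B => if B = ∅ then 1 else 0
  | b :: bs, B => cv (R b) (Vv bs) B

theorem Vv_empty (bs : List (Fin N)) : Vv bs ∅ = (1 : A N) := by
  induction bs with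
  | nil => rw [Vv, if_pos rfl]
  | cons b bs ih => rw [Vv, cv_empty, R_empty, ih, mul_one]

theorem Vv_commute {z : A N} (bs : List (Fin N)) (B : Finset (Fin N))
    (h : ∀ b ∈ bs, ∀ c ∈ B, Commute z (X c b)) : Commute z (Vv bs B) := by
  induction bs generalizing B with
  | nil =>
    rw [Vv]
    split_ifs
    · exact Commute.one_right z
    · exact Commute.zero_right z
  | cons b bs ih =>
    rw [Vv]
    unfold cv
    refine Commute.sum_right _ _ _ fun C hC => ?_
    rw [mem_powerset] at hC
    refine Commute.mul_right ?_ ?_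
    · exact R_commute fun c hc => h b List.mem_cons_self c (hC hc)
    · exact ih _ fun b' hb' c hc => h b' (List.mem_cons_of_mem _ hb') c (mem_sdiff.1 hc).1


/-! ### The columns -/

/-- the columns `j, .., N - 1` -/
def cols (N j : ℕ) : List (Fin N) := (List.finRange N).filter fun b => j ≤ b.val

theorem mem_cols {j : ℕ} {b : Fin N} : b ∈ cols N j ↔ j ≤ b.val := by
  simp [cols]

theorem pw_cols (N j : ℕ) : (cols N j).Pairwise (· < ·) :=
  (List.pairwise_lt_finRange N).filter _

theorem nodup_cols (N j : ℕ) : (cols N j).Nodup := (List.nodup_finRange N).filter _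

theorem cols_succ {j : ℕ} (hj : j < N) : cols N j = ⟨j, hj⟩ :: cols N (j + 1) := by
  have h1 : (cols N j).Pairwise (· < ·) := pw_cols N j
  have h2 : (⟨j, hj⟩ :: cols N (j + 1) : List (Fin N)).Pairwise (· < ·) := by
    rw [List.pairwise_cons]
    refine ⟨fun b hb => ?_, pw_cols N (j + 1)⟩
    rw [mem_cols] at hb
    rw [Fin.lt_def]
    exact hb
  have h3 : (cols N j).Perm (⟨j, hj⟩ :: cols N (j + 1)) := by
    rw [List.perm_ext_iff_of_nodup (nodup_cols N j) (h2.imp fun h => h.ne)]
    intro b
    rw [List.mem_cons, mem_cols, mem_cols, Fin.ext_iff]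
    show j ≤ b.val ↔ b.val = j ∨ j + 1 ≤ b.val
    omega
  exact List.Perm.eq_of_pairwise (fun a b _ _ hab hba => absurd hab hba.not_gt) h1 h2 h3

theorem cols_top (N : ℕ) : cols N N = [] := by
  rw [List.eq_nil_iff_forall_not_mem]
  intro b hb
  rw [mem_cols] at hb
  exact absurd hb b.isLt.not_ge

/-! ### The induction step -/

/-- the bracket -/
def br (k : Fin N) (bs : List (Fin N)) (E : Finset (Fin N)) : A N :=
  (bs.map fun b => X k b).sum - ∑ a ∈ E, X a k

theorem col_cv (col : ColStmt) {k b : Fin N} (hkb : k < b) {D : Finset (Fin N)}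
    (hD : ∀ a ∈ D, a < k) :
    cv (R k) (fun F => R b F * (X k b - ∑ a ∈ F, X a k)) D = R b (insert k D) := by
  rw [col N k b D hD hkb, cv_flip]
  refine sum_congr rfl fun B hB => ?_
  rw [mem_powerset] at hB
  rw [← mul_assoc]
  congr 1
  have : Commute (R k (D \ B)) (R b B) := by
    refine R_commute fun c hc => ?_
    refine Commute.symm (R_commute fun c' hc' => ?_)
    rw [mem_sdiff] at hc'
    exact X_comm (fun h => hc'.2 (h ▸ hc)) (hD c (hB hc)).ne
      ((hD c' hc'.1).trans hkb).ne' hkb.ne'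
  exact this.eq

theorem star (col : ColStmt) {k : Fin N} (bs : List (Fin N)) (hn : bs.Nodup)
    (hb : ∀ b ∈ bs, k < b) {D : Finset (Fin N)} (hD : ∀ a ∈ D, a < k) :
    cv (R k) (fun E => Vv bs E * br k bs E) D = Vv bs (insert k D) := by
  induction bs generalizing D with
  | nil =>
    have h1 : Vv [] (insert k D) = (0 : A N) := by
      rw [Vv, if_neg (insert_ne_empty k D)]
    rw [h1]
    unfold cv
    refine sum_eq_zero fun B _ => ?_
    have : Vv [] (D \ B) * br k [] (D \ B) = (0 : A N) := by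
      rw [Vv]
      split_ifs with h
      · rw [h]
        simp [br]
      · rw [zero_mul]
    simp only [this, mul_zero]
  | cons b bs ih =>
    rw [List.nodup_cons] at hn
    have hkb : k < b := hb b List.mem_cons_self
    have hb' : ∀ b' ∈ bs, k < b' := fun b' h => hb b' (List.mem_cons_of_mem _ h)
    have e1 : cv (R k) (fun E => Vv (b :: bs) E * br k (b :: bs) E) D =
        cv (R k) (fun E => cv (fun F => R b F * (X k b - ∑ a ∈ F, X a k)) (Vv bs) E +
          cv (R b) (fun G => Vv bs G * br k bs G) E) D := by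
      refine cv_congr (fun _ _ => rfl) fun E hE => ?_
      rw [Vv]
      unfold cv
      rw [sum_mul, ← sum_add_distrib]
      refine sum_congr rfl fun F hF => ?_
      rw [mem_powerset] at hF
      have hbr : br k (b :: bs) E = (X k b - ∑ a ∈ F, X a k) + br k bs (E \ F) := by
        unfold br
        rw [List.map_cons, List.sum_cons, ← sum_sdiff hF]
        abel
      have hc : Commute (X k b - ∑ a ∈ F, X a k) (Vv bs (E \ F)) := by
        refine Commute.sub_left ?_ ?_
        · refine Vv_commute bs _ fun b' hb'' c hc => ?_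
          rw [mem_sdiff] at hc
          have hck := hD c (hE hc.1)
          exact X_comm hck.ne' (hb' b' hb'').ne (hck.trans hkb).ne' (fun h => hn.1 (h ▸ hb''))
        · refine Commute.sum_left _ _ _ fun a ha => ?_
          refine Vv_commute bs _ fun b' hb'' c hc => ?_
          rw [mem_sdiff] at hc
          have hck := hD c (hE hc.1)
          have hak := hD a (hE (hF ha))
          exact X_comm (fun h => hc.2 (h ▸ ha)) (hak.trans (hb' b' hb'')).ne hck.ne'
            (hb' b' hb'').ne
      rw [hbr, mul_add, mul_assoc (R b F), mul_assoc (R b F), mul_assoc (R b F), ← hc.eq]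
    have e2 : cv (R k) (fun E => cv (fun F => R b F * (X k b - ∑ a ∈ F, X a k)) (Vv bs) E) D =
        cv (fun D' => R b (insert k D')) (Vv bs) D := by
      rw [← cv_assoc]
      refine cv_congr (fun D' hD' => ?_) fun _ _ => rfl
      exact col_cv col hkb fun a ha => hD a (hD' ha)
    have e3 : cv (R k) (fun E => cv (R b) (fun G => Vv bs G * br k bs G) E) D =
        cv (R b) (fun D' => Vv bs (insert k D')) D := by
      rw [← cv_assoc]
      have : cv (cv (R k) (R b)) (fun G => Vv bs G * br k bs G) D =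
          cv (cv (R b) (R k)) (fun G => Vv bs G * br k bs G) D := by
        refine cv_congr (fun D' hD' => ?_) fun _ _ => rfl
        refine cv_comm fun B hB => ?_
        have : Commute (R k B) (R b (D' \ B)) := by
          refine R_commute fun c hc => ?_
          rw [mem_sdiff] at hc
          refine Commute.symm (R_commute fun c' hc' => ?_)
          have hck := hD c (hD' hc.1)
          have hck' := hD c' (hD' (hB hc'))
          exact X_comm (fun h => hc.2 (h ▸ hc')) hck.ne (hck'.trans hkb).ne' hkb.ne'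
        exact this.eq
      rw [this, cv_assoc]
      refine cv_congr (fun _ _ => rfl) fun D' hD' => ?_
      exact ih hn.2 hb' fun a ha => hD a (hD' ha)
    rw [e1, cv_add_right, e2, e3, Vv, cv_insert _ _ (fun h => (hD k h).ne rfl), add_comm]

/-- the right multiplication with the bracket -/
theorem Vv_br (str : StrStmt) (col : ColStmt) {k : Fin N} (bs : List (Fin N)) (hn : bs.Nodup)
    (hb : ∀ b ∈ bs, k < b) {D : Finset (Fin N)} (hD : ∀ a ∈ D, a < k) :
    Vv (k :: bs) D * br k bs D = Vv bs (insert k D) := by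
  rw [← star col bs hn hb hD, Vv]
  unfold cv
  rw [sum_mul]
  refine sum_congr rfl fun C hC => ?_
  rw [mem_powerset] at hC
  have hbr : br k bs D = br k bs (D \ C) - ∑ a ∈ C, X a k := by
    unfold br
    rw [← sum_sdiff hC]
    abel
  have h0 : R k C * Vv bs (D \ C) * ∑ a ∈ C, X a k = 0 := by
    rw [mul_sum]
    refine sum_eq_zero fun a ha => ?_
    have hc : Commute (X a k) (Vv bs (D \ C)) := by
      refine Vv_commute bs _ fun b' hb'' c hc => ?_
      rw [mem_sdiff] at hc
      have hck := hD c hc.1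
      have hak := hD a (hC ha)
      exact X_comm (fun h => hc.2 (h ▸ ha)) (hak.trans (hb b' hb'')).ne hck.ne'
        (hb b' hb'').ne
    rw [mul_assoc, ← hc.eq, ← mul_assoc, R_kill str k (fun c hc => hD c (hC hc)) ha, zero_mul]
  rw [hbr, mul_sub, h0, sub_zero, mul_assoc]

theorem R_sg (k : Fin N) (C : Finset (Fin N)) :
    cv (R k) (sg fun a => X a k) C = R k C - if C = ∅ then 1 else 0 := by
  rw [cv_sg]
  split_ifs with h
  · subst h
    rw [sum_empty, R_empty, sub_self]
  · rw [sub_zero]
    exact (R_right k (nonempty_iff_ne_empty.2 h)).symm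

/-- the sum over all new rows -/
theorem Vv_sg {k : Fin N} (bs : List (Fin N)) (hb : ∀ b ∈ bs, k < b) {D : Finset (Fin N)}
    (hD : ∀ a ∈ D, a < k) :
    cv (Vv (k :: bs)) (sg fun a => X a k) D = Vv (k :: bs) D - Vv bs D := by
  have h1 : cv (Vv (k :: bs)) (sg fun a => X a k) D =
      cv (cv (R k) (Vv bs)) (sg fun a => X a k) D := by
    refine cv_congr (fun D' _ => ?_) fun _ _ => rfl
    rw [Vv]
  rw [h1, cv_assoc]
  have h2 : cv (R k) (cv (Vv bs) (sg fun a => X a k)) D =
      cv (R k) (cv (sg fun a => X a k) (Vv bs)) D := by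
    refine cv_congr (fun _ _ => rfl) fun D' hD' => ?_
    refine cv_comm fun B hB => ?_
    unfold sg
    split_ifs
    · rw [mul_sum, sum_mul]
      refine sum_congr rfl fun a ha => ?_
      rw [mem_sdiff] at ha
      have hc : Commute (X a k) (Vv bs B) := by
        refine Vv_commute bs _ fun b' hb'' c hc => ?_
        have hck := hD c (hD' (hB hc))
        have hak := hD a (hD' ha.1)
        exact X_comm (fun h => ha.2 (h ▸ hc)) (hak.trans (hb b' hb'')).ne hck.ne'
          (hb b' hb'').ne
      exact hc.eq.symm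
    · rw [mul_zero, zero_mul]
  rw [h2, ← cv_assoc]
  have h3 : cv (cv (R k) (sg fun a => X a k)) (Vv bs) D =
      cv (fun C => R k C + -(if C = ∅ then 1 else 0)) (Vv bs) D := by
    refine cv_congr (fun D' _ => ?_) fun _ _ => rfl
    rw [R_sg, sub_eq_add_neg]
  rw [h3, cv_add_left, Vv, sub_eq_add_neg]
  congr 1
  unfold cv
  rw [sum_eq_single ∅]
  · beta_reduce
    rw [if_pos rfl, sdiff_empty, neg_mul, one_mul]
  · intro B _ hB
    beta_reduce
    rw [if_neg hB, neg_zero, zero_mul]
  · intro h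
    exact absurd (mem_powerset.2 (empty_subset D)) h

/-! ### The formula -/

/-- the rows `0, .., j - 1` -/
def rw' (N j : ℕ) : Finset (Fin N) := univ.filter fun i : Fin N => i.val < j

theorem mem_rw' {j : ℕ} {i : Fin N} : i ∈ rw' N j ↔ i.val < j := by
  simp [rw']

theorem rw'_succ {j : ℕ} (hj : j < N) : rw' N (j + 1) = insert ⟨j, hj⟩ (rw' N j) := by
  ext i
  rw [mem_insert, mem_rw', mem_rw', Fin.ext_iff]
  show i.val < j + 1 ↔ i.val = j ∨ i.val < j
  omega

theorem notMem_rw' {j : ℕ} (hj : j < N) : (⟨j, hj⟩ : Fin N) ∉ rw' N j := by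
  rw [mem_rw']
  exact lt_irrefl j

/-- the sum over the decompositions of `m` rows -/
def U (N j m : ℕ) : A N := ∑ B ∈ powersetCard m (rw' N j), Vv (cols N j) B

theorem theta_eq {j : ℕ} (hj : j < N) :
    (θ (⟨j, hj⟩ : Fin N) : A N) =
      ((cols N (j + 1)).map fun b => X ⟨j, hj⟩ b).sum - ∑ a ∈ rw' N j, X a ⟨j, hj⟩ := by
  have h1 : ((cols N (j + 1)).map fun b => X ⟨j, hj⟩ b).sum =
      ∑ b ∈ (cols N (j + 1)).toFinset, (X ⟨j, hj⟩ b : A N) :=
    (List.sum_toFinset _ (nodup_cols N (j + 1))).symm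
  have h2 : (univ : Finset (Fin N)) = (cols N (j + 1)).toFinset ∪ insert ⟨j, hj⟩ (rw' N j) := by
    ext i
    rw [mem_union, List.mem_toFinset, mem_cols, ← rw'_succ, mem_rw']
    simp only [mem_univ, true_iff]
    omega
  have h3 : Disjoint (cols N (j + 1)).toFinset (insert ⟨j, hj⟩ (rw' N j)) := by
    rw [disjoint_left]
    intro i h4 h5
    rw [List.mem_toFinset, mem_cols] at h4
    rw [← rw'_succ, mem_rw'] at h5
    omega
  rw [h1]
  unfold θ
  rw [h2, sum_union h3, sum_insert (notMem_rw' hj), X_self, zero_add, sub_eq_add_neg,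
    ← sum_neg_distrib]
  congr 1
  refine sum_congr rfl fun a _ => ?_
  rw [X_neg]

theorem U_step (str : StrStmt) (col : ColStmt) {j : ℕ} (hj : j < N) (m : ℕ) :
    U N (j + 1) (m + 1) = U N j (m + 1) + U N j m * θ ⟨j, hj⟩ := by
  have hk : ∀ B ⊆ rw' N j, ∀ a ∈ B, a < (⟨j, hj⟩ : Fin N) := by
    intro B hB a ha
    have := hB ha
    rw [mem_rw'] at this
    rw [Fin.lt_def]
    exact this
  have hb : ∀ b ∈ cols N (j + 1), (⟨j, hj⟩ : Fin N) < b := by
    intro b h
    rw [mem_cols] at h
    rw [Fin.lt_def]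
    exact h
  have e1 : U N (j + 1) (m + 1) = ∑ B ∈ powersetCard (m + 1) (rw' N j), Vv (cols N (j + 1)) B +
      ∑ B ∈ powersetCard m (rw' N j), Vv (cols N (j + 1)) (insert ⟨j, hj⟩ B) := by
    unfold U
    rw [rw'_succ hj, powersetCard_succ_insert (notMem_rw' hj), sum_union, sum_image]
    · intro B hB C hC hBC
      have hB' : (⟨j, hj⟩ : Fin N) ∉ B := fun h =>
        notMem_rw' hj ((mem_powersetCard.1 hB).1 h)
      have hC' : (⟨j, hj⟩ : Fin N) ∉ C := fun h =>
        notMem_rw' hj ((mem_powersetCard.1 hC).1 h)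
      have : insert (⟨j, hj⟩ : Fin N) B = insert ⟨j, hj⟩ C := hBC
      rw [← erase_insert hB', this, erase_insert hC']
    · rw [disjoint_left]
      intro B hB hB'
      obtain ⟨C, _, rfl⟩ := mem_image.1 hB'
      exact notMem_rw' hj ((mem_powersetCard.1 hB).1 (mem_insert_self _ _))
  have e2 : ∑ B ∈ powersetCard m (rw' N j), Vv (cols N (j + 1)) (insert ⟨j, hj⟩ B) =
      ∑ B ∈ powersetCard m (rw' N j), Vv (cols N j) B * br ⟨j, hj⟩ (cols N (j + 1)) B := by
    refine sum_congr rfl fun B hB => ?_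
    rw [cols_succ hj, Vv_br str col _ (nodup_cols N (j + 1)) hb (hk B (mem_powersetCard.1 hB).1)]
  have e3 : ∑ B ∈ powersetCard m (rw' N j), Vv (cols N j) B * ∑ a ∈ rw' N j \ B, X a ⟨j, hj⟩ =
      U N j (m + 1) - ∑ B ∈ powersetCard (m + 1) (rw' N j), Vv (cols N (j + 1)) B := by
    rw [sum_move]
    unfold U
    rw [← sum_sub_distrib]
    refine sum_congr rfl fun B hB => ?_
    rw [cols_succ hj, Vv_sg _ hb (hk B (mem_powersetCard.1 hB).1)]
  have e4 : U N j m * θ ⟨j, hj⟩ =
      ∑ B ∈ powersetCard m (rw' N j), Vv (cols N j) B * br ⟨j, hj⟩ (cols N (j + 1)) B -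
      ∑ B ∈ powersetCard m (rw' N j), Vv (cols N j) B * ∑ a ∈ rw' N j \ B, X a ⟨j, hj⟩ := by
    unfold U
    rw [sum_mul, ← sum_sub_distrib]
    refine sum_congr rfl fun B hB => ?_
    rw [← mul_sub, theta_eq hj, ← sum_sdiff (mem_powersetCard.1 hB).1]
    congr 1
    unfold br
    abel
  rw [e1, e2, e4, e3]
  abel

theorem ek_zero (N j : ℕ) : ek N j 0 = 1 := by
  unfold ek
  rw [powersetCard_zero, sum_singleton, prod_empty]

theorem U_zero (N j : ℕ) : U N j 0 = 1 := by
  unfold U
  rw [powersetCard_zero, sum_singleton, Vv_empty]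

theorem ek_step {j : ℕ} (hj : j < N) (m : ℕ) :
    ek N (j + 1) (m + 1) = ek N j (m + 1) + ek N j m * MvPolynomial.X ⟨j, hj⟩ := by
  have h0 : ∀ i, (univ.filter fun a : Fin N => a.val < i) = rw' N i := fun _ => rfl
  unfold ek
  rw [h0, h0, rw'_succ hj, powersetCard_succ_insert (notMem_rw' hj), sum_union, sum_image, sum_mul]
  · congr 1
    refine sum_congr rfl fun B hB => ?_
    have hB' : (⟨j, hj⟩ : Fin N) ∉ B := fun h =>
      notMem_rw' hj ((mem_powersetCard.1 hB).1 h)
    rw [prod_insert hB', mul_comm]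
  · intro B hB C hC hBC
    have hB' : (⟨j, hj⟩ : Fin N) ∉ B := fun h =>
      notMem_rw' hj ((mem_powersetCard.1 hB).1 h)
    have hC' : (⟨j, hj⟩ : Fin N) ∉ C := fun h =>
      notMem_rw' hj ((mem_powersetCard.1 hC).1 h)
    have : insert (⟨j, hj⟩ : Fin N) B = insert ⟨j, hj⟩ C := hBC
    rw [← erase_insert hB', this, erase_insert hC']
  · rw [disjoint_left]
    intro B hB hB'
    obtain ⟨C, _, rfl⟩ := mem_image.1 hB'
    exact notMem_rw' hj ((mem_powersetCard.1 hB).1 (mem_insert_self _ _))

theorem ek_top (N m : ℕ) : ek N 0 (m + 1) = 0 := by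
  unfold ek
  have : (univ.filter fun i : Fin N => i.val < 0) = ∅ := by
    ext i
    simp
  rw [this, powersetCard_eq_empty.2 (by simp), sum_empty]

theorem U_top (N m : ℕ) : U N 0 (m + 1) = 0 := by
  unfold U
  have : rw' N 0 = ∅ := by
    ext i
    simp [rw']
  rw [this, powersetCard_eq_empty.2 (by simp), sum_empty]

theorem ev_ek (str : StrStmt) (col : ColStmt) {j : ℕ} (hj : j ≤ N) (m : ℕ) :
    ev N (ek N j m) = U N j m := by
  induction j generalizing m with
  | zero =>
    cases m with
    | zero => rw [ek_zero, U_zero, map_one]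
    | succ m => rw [ek_top, U_top, map_zero]
  | succ j ih =>
    cases m with
    | zero => rw [ek_zero, U_zero, map_one]
    | succ m =>
      have hj' : j < N := hj
      rw [ek_step hj', U_step str col hj', map_add, map_mul, ev_X, ih hj'.le, ih hj'.le]

/-- Pieri's formula for `e_k` of the first `j` Dunkl elements -/
theorem pieri_exact (str : StrStmt) (col : ColStmt) {j : ℕ} (hj : j ≤ N) (k : ℕ) :
    ev N (ek N j k) =
      ∑ B ∈ powersetCard k (univ.filter fun i : Fin N => i.val < j), Vv (cols N j) B :=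
  ev_ek str col hj k

end Pool.Agent.FKP.H20
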